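import Pool.Agent.Lib.MP_60ff09_nt.Cut.MAHk

/-! Cusp forms of weight two as functions, and Hecke operators. -/

set_option autoImplicit false

namespace Pool.Agent.Lib.MP_0d42ed_ag.FM.C9

open UpperHalfPlane
open scoped MatrixGroups ModularForm Manifold

/-- The slash operator of weight two. -/
noncomputable def sl (f : ℍ → ℂ) (A : M2) : ℍ → ℂ := f ∣[(2 : ℤ)] gm A

variable {A B : M2} {f g : ℍ → ℂ} {Γ Γ₁ Γ₂ : Subgroup SL(2, ℤ)}

theorem sig_gm (hA : 0 < A.det) (z : ℂ) : σ (gm A) z = z := by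
  have h : 0 < (gm A).det.val := gm_pos hA
  simp only [σ, h, if_true]
  rfl

theorem denom_gm (hA : A.det ≠ 0) (τ : ℂ) : denom (gm A) τ = A 1 0 * τ + A 1 1 := by
  simp [denom, gm_apply hA]

theorem sl_apply (hA : 0 < A.det) (f : ℍ → ℂ) (τ : ℍ) :
    sl f A τ = ((gm A).val.det : ℂ) / denom (gm A) τ ^ 2 * f (gm A • τ) := by
  have h := gm_pos hA
  rw [sl, ModularForm.slash_apply, sig_gm hA, Matrix.GeneralLinearGroup.val_det_apply, abs_of_pos h,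
    zpow_neg, div_eq_mul_inv]
  norm_num
  ring

theorem sl_tri {a d : ℤ} (b : ℤ) (ha : 0 < a) (hd : 0 < d) (f : ℍ → ℂ) (τ : ℍ) :
    sl f !![a, b; 0, d] τ = (a : ℂ) / d * f (gm !![a, b; 0, d] • τ) := by
  have hD : (!![a, b; 0, d] : M2).det = a * d := by simp
  have h : 0 < (!![a, b; 0, d] : M2).det := hD ▸ mul_pos ha hd
  have hd' : (d : ℂ) ≠ 0 := Int.cast_ne_zero.2 hd.ne'
  rw [sl_apply h, gm_det h.ne', denom_gm h.ne', hD]
  congr 1
  simp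
  field_simp

theorem sl_SL (f : ℍ → ℂ) (γ : SL(2, ℤ)) : sl f γ = f ∣[(2 : ℤ)] γ := by
  rw [sl, gm_SL, ModularForm.SL_slash]

theorem sl_T (f : ℍ → ℂ) (n : ℤ) (τ : ℍ) :
    sl f (ModularGroup.T ^ n : SL(2, ℤ)) τ = f (ModularGroup.T ^ n • τ) := by
  rw [sl_apply (by rw [Matrix.SpecialLinearGroup.det_coe]; exact one_pos), gm_SL_smul,
    gm_det (by rw [Matrix.SpecialLinearGroup.det_coe]; exact one_ne_zero),
    denom_gm (by rw [Matrix.SpecialLinearGroup.det_coe]; exact one_ne_zero),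
    Matrix.SpecialLinearGroup.det_coe, ModularGroup.coe_T_zpow]
  simp

theorem sl_mul (hA : A.det ≠ 0) (hB : B.det ≠ 0) (f : ℍ → ℂ) : sl f (A * B) = sl (sl f A) B := by
  rw [sl, gm_mul hA hB, SlashAction.slash_mul, sl, sl]

theorem sl_SL_mul (γ γ' : SL(2, ℤ)) (f : ℍ → ℂ) : sl f (γ * γ' : SL(2, ℤ)) = sl (sl f γ) γ' := by
  rw [Matrix.SpecialLinearGroup.coe_mul, sl_mul (by simp) (by simp)]

theorem sl_one (f : ℍ → ℂ) : sl f 1 = f := by
  rw [sl, gm_one, SlashAction.slash_one]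

theorem sl_scalar {c : ℤ} (hc : c ≠ 0) (hA : 0 < A.det) (f : ℍ → ℂ) : sl f (c • A) = sl f A := by
  have hD : (c • A).det = c ^ 2 * A.det := by
    rw [Matrix.det_smul, Fintype.card_fin]
  have h : 0 < (c • A).det := hD ▸ mul_pos (by positivity) hA
  have hc' : (c : ℂ) ≠ 0 := Int.cast_ne_zero.2 hc
  funext τ
  have h0 := denom_ne_zero (gm A) τ
  rw [sl_apply h, sl_apply hA, gm_smul_smul hc hA, gm_det h.ne', gm_det hA.ne', hD,
    show denom (gm (c • A)) τ = c * denom (gm A) τ by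
      rw [denom_gm h.ne', denom_gm hA.ne']; simp; ring]
  push_cast
  field_simp

theorem sl_add (f g : ℍ → ℂ) (A : M2) : sl (f + g) A = sl f A + sl g A := SlashAction.add_slash _ _ _ _

theorem sl_zero (A : M2) : sl 0 A = 0 := SlashAction.zero_slash _ _

theorem sl_smul (hA : 0 < A.det) (c : ℂ) (f : ℍ → ℂ) : sl (c • f) A = c • sl f A := by
  rw [sl, ModularForm.smul_slash, sig_gm hA, sl]

theorem sl_sum {ι : Type} (s : Finset ι) (F : ι → ℍ → ℂ) (A : M2) :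
    sl (∑ i ∈ s, F i) A = ∑ i ∈ s, sl (F i) A := SlashAction.sum_slash _ _

set_option linter.unusedVariables false in
theorem sl_mdiff (hA : 0 < A.det) (hf : MDiff f) : MDiff (sl f A) := hf.slash _ _

/-- Holomorphic periodic functions which vanish at infinity. -/
structure Pz (h : ℝ) (f : ℍ → ℂ) : Prop where
  hol : MDiff f
  per : Function.Periodic (f ∘ ofComplex) h
  zero : IsZeroAtImInfty f

theorem Pz.bdd {h : ℝ} (a : Pz h f) : IsBoundedAtImInfty f := a.zero.isBoundedAtImInfty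

theorem Pz.add {h : ℝ} (a : Pz h f) (b : Pz h g) : Pz h (f + g) := 
  ⟨a.hol.add b.hol, a.per.add b.per, a.zero.add b.zero⟩

theorem Pz.smul {h : ℝ} (c : ℂ) (a : Pz h f) : Pz h (c • f) := 
  ⟨a.hol.const_smul c, fun w => congrArg (c • ·) (a.per w), a.zero.smul c⟩

theorem periodic_of_T {m : ℕ} (h : ∀ τ : ℍ, f (ModularGroup.T ^ (m : ℤ) • τ) = f τ) :
    Function.Periodic (f ∘ ofComplex) (m : ℝ) := by
  intro w
  by_cases! hw : 0 < w.im
  · have : 0 < (w + (m : ℝ)).im := by simp [hw]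
    simp only [Function.comp_apply, ofComplex_apply_of_im_pos this, ofComplex_apply_of_im_pos hw]
    rw [← h ⟨w, hw⟩, modular_T_zpow_smul]
    congr 1
    ext1
    simp [add_comm]
  · have : (w + (m : ℝ)).im ≤ 0 := by simp [hw]
    simp only [Function.comp_apply, ofComplex_apply_eq_of_im_nonpos this hw]

/-- Cusp forms of weight two. -/
def Cf (Γ : Subgroup SL(2, ℤ)) : Submodule ℂ (ℍ → ℂ) where
  carrier := {f | MDiff f ∧ (∀ γ ∈ Γ, sl f γ = f) ∧ ∀ g : SL(2, ℤ), IsZeroAtImInfty (sl f g)}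
  add_mem' a b := ⟨a.1.add b.1, fun γ hγ => by rw [sl_add, a.2.1 γ hγ, b.2.1 γ hγ],
    fun g => by rw [sl_add]; exact (a.2.2 g).add (b.2.2 g)⟩
  zero_mem' := ⟨mdifferentiable_const, fun γ _ => sl_zero _,
    fun g => by rw [sl_zero]; exact Submodule.zero_mem (zeroAtImInftySubmodule ℂ)⟩
  smul_mem' c f a := ⟨a.1.const_smul c, fun γ hγ => by rw [sl_smul (by simp), a.2.1 γ hγ],
    fun g => by rw [sl_smul (by simp)]; exact (a.2.2 g).smul c⟩

theorem mem_Cf : f ∈ Cf Γ ↔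
    MDiff f ∧ (∀ γ ∈ Γ, sl f γ = f) ∧ ∀ g : SL(2, ℤ), IsZeroAtImInfty (sl f g) := Iff.rfl

theorem sl_mem_Cf (hA : 0 < A.det) (h : Cj A Γ₁ Γ₂) (hf : f ∈ Cf Γ₂) : sl f A ∈ Cf Γ₁ := by
  refine ⟨sl_mdiff hA hf.1, fun γ hγ => ?_, fun g => ?_⟩
  · obtain ⟨γ', a, b⟩ := h γ hγ
    rw [← sl_mul hA.ne' (by simp), b, sl_mul (by simp) hA.ne', hf.2.1 γ' a]
  · obtain ⟨γ, a, b, d, ha, hd, e⟩ := hnf (A := A * (g : M2)) (by rwa [det_mul_SL])
    have hT : (!![a, b; 0, d] : M2).det ≠ 0 := by simp [ha.ne', hd.ne']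
    rw [← sl_mul hA.ne' (by simp), e, sl_mul (by simp) hT]
    exact IsZeroAtImInfty.slash _ (by simp [gm_apply hT]) (hf.2.2 γ)

theorem Cf_mono (h : Γ₁ ≤ Γ₂) : Cf Γ₂ ≤ Cf Γ₁ := fun _ a => ⟨a.1, fun γ b => a.2.1 γ (h b), a.2.2⟩

theorem sl_mem_Gsc {m : ℕ} (γ : SL(2, ℤ)) (hf : f ∈ Cf (Gsc m)) : sl f γ ∈ Cf (Gsc m) :=
  sl_mem_Cf (by simp) (Cj.normal _ γ) hf

theorem pz_of_Cf {m : ℕ} (hf : f ∈ Cf (Gsc m)) : Pz m f := by
  refine ⟨hf.1, periodic_of_T fun τ => ?_, by simpa [sl_one] using hf.2.2 1⟩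
  rw [← sl_T f, hf.2.1 _ (by simpa using T_zpow_mem_Gsc m 1)]

theorem Reps.sum_sl {ι κ : Type} [Fintype ι] [Fintype κ] {Δ : Set M2} {X : ι → M2} {Y : κ → M2}
    (h : Reps Γ Δ X) (h' : Reps Γ Δ Y) (hΔ : ∀ A ∈ Δ, A.det ≠ 0) (hf : ∀ γ ∈ Γ, sl f γ = f) :
    ∑ i, sl f (X i) = ∑ j, sl f (Y j) := by
  obtain ⟨e, he⟩ := h.equiv h'
  refine Fintype.sum_equiv e _ _ fun i => ?_
  obtain ⟨γ, a, b⟩ := he i
  rw [b, sl_mul (by simp) (hΔ _ (h'.mem _)), hf γ a]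

/-- The Hecke operator. -/
noncomputable def hk (m r : ℕ) (f : ℍ → ℂ) : ℍ → ℂ := ∑ i, sl f (std m r (diaH m r) i)

variable {m r : ℕ} {σ : SL(2, ℤ)} (hr : r.Prime) (hm : ¬ r ∣ m) (hf : f ∈ Cf (Gsc m))
include hr hm hf

omit hm hf in
theorem det_Dl (h : A ∈ Dl m r) : 0 < A.det := h.1 ▸ Int.natCast_pos.2 hr.pos

omit hm hf in
theorem det_Du (h : A ∈ Du m r) : 0 < A.det := h.1 ▸ Int.natCast_pos.2 hr.pos

theorem hk_eq {ι : Type} [Fintype ι] {X : ι → M2} (h : Reps (Gsc m) (Dl m r) X) :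
    hk m r f = ∑ i, sl f (X i) := 
  (reps_std hr hm (isDia_diaH hr hm)).sum_sl h (fun _ a => (det_Dl hr a).ne') hf.2.1

theorem hk_du {ι : Type} [Fintype ι] {X : ι → M2} (hσ : IsDia m r σ)
    (h : Reps (Gsc m) (Du m r) X) : hk m r (sl f (σ⁻¹ : SL(2, ℤ))) = ∑ i, sl f (X i) := by
  rw [hk_eq hr hm (sl_mem_Gsc _ hf) (h.mul_left (Δ' := Dl m r) σ fun B => by
    rw [mem_Du_iff hσ, ← mul_assoc, ← Matrix.SpecialLinearGroup.coe_mul, mul_inv_cancel,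
      Matrix.SpecialLinearGroup.coe_one, one_mul])]
  refine Finset.sum_congr rfl fun i _ => ?_
  rw [← sl_mul (by rw [Matrix.SpecialLinearGroup.det_coe]; exact one_ne_zero)
    (by rw [det_SL_mul]; exact (det_Du hr (h.mem i)).ne'), ← mul_assoc,
    ← Matrix.SpecialLinearGroup.coe_mul, inv_mul_cancel, Matrix.SpecialLinearGroup.coe_one, one_mul]

theorem hk_mem : hk m r f ∈ Cf (Gsc m) := by
  have R := reps_std hr hm (isDia_diaH hr hm)
  have M : hk m r f ∈ Cf (Gsc (m * r)) := Submodule.sum_mem _ fun i _ =>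
    sl_mem_Cf (det_Dl hr (R.mem i)) (cj_Dl hr hm (R.mem i)) hf
  refine ⟨M.1, fun γ hγ => ?_, M.2.2⟩
  have R' := R.mul_right (Δ' := Dl m r) γ fun B => ⟨Dl_right (inv_mem hγ), fun k => by
    have := Dl_right hγ k
    rwa [mul_assoc, ← Matrix.SpecialLinearGroup.coe_mul, inv_mul_cancel,
      Matrix.SpecialLinearGroup.coe_one, mul_one] at this⟩
  conv_rhs => rw [hk_eq hr hm hf R']
  rw [hk, sl_sum]
  refine Finset.sum_congr rfl fun i _ => ?_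
  rw [sl_mul (det_Dl hr (R.mem i)).ne' (by simp)]

theorem hk_sl {u u' : SL(2, ℤ)}
    (h : !![1, 0; 0, (r : ZMod m)] * rd m u' = rd m u * !![1, 0; 0, (r : ZMod m)]) :
    hk m r (sl f u) = sl (hk m r f) u' := by
  have R := reps_std hr hm (isDia_diaH hr hm)
  have R1 := R.mul_left (Δ' := {B | ((u⁻¹ : SL(2, ℤ)) : M2) * B ∈ Dl m r}) u fun _ => Iff.rfl
  have R2 := R.mul_right (Δ' := {B | ((u⁻¹ : SL(2, ℤ)) : M2) * B ∈ Dl m r}) u'
    fun _ => Dl_conj hr hm h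
  have e := R1.sum_sl R2 (fun B k => by
    rw [← det_SL_mul u⁻¹]; exact (det_Dl hr k).ne') hf.2.1
  rw [hk, hk, sl_sum]
  convert e using 2 with i _ i _
  · rw [sl_mul (by simp) (det_Dl hr (R.mem i)).ne']
  · rw [sl_mul (det_Dl hr (R.mem i)).ne' (by simp)]

end Pool.Agent.Lib.MP_0d42ed_ag.FM.C9
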