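import Pool.Agent.Lib.MP_60ff09_nt.Cut.MAMat

/-! The matrices which define Hecke operators. -/

set_option autoImplicit false

namespace Pool.Agent.Lib.MP_0d42ed_ag.FM.C9

open scoped MatrixGroups UpperHalfPlane

variable {A B : M2}

/-- Matrices of determinant `r` which are congruent to a multiple of `diag (1, r)`. -/
def Dl (m r : ℕ) : Set M2 :=
  {A | A.det = r ∧ (m : ℤ) ∣ A 0 1 ∧ (m : ℤ) ∣ A 1 0 ∧ (m : ℤ) ∣ A 1 1 - r * A 0 0}

/-- Matrices of determinant `r` which are congruent to a multiple of `diag (r, 1)`. -/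
def Du (m r : ℕ) : Set M2 :=
  {A | A.det = r ∧ (m : ℤ) ∣ A 0 1 ∧ (m : ℤ) ∣ A 1 0 ∧ (m : ℤ) ∣ A 0 0 - r * A 1 1}

/-- `diag (1, r)`. -/
def dl (r : ℕ) : M2 := !![1, 0; 0, (r : ℤ)]

/-- `diag (r, 1)`. -/
def du (r : ℕ) : M2 := !![(r : ℤ), 0; 0, 1]

theorem det_dl (r : ℕ) : (dl r).det = r := by simp [dl]

theorem det_du (r : ℕ) : (du r).det = r := by simp [du]

theorem dl_mul_du (r : ℕ) : dl r * du r = (r : ℤ) • (1 : M2) := by
  ext i j; fin_cases i <;> fin_cases j <;> simp [dl, du]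

theorem du_mul_dl (r : ℕ) : du r * dl r = (r : ℤ) • (1 : M2) := by
  ext i j; fin_cases i <;> fin_cases j <;> simp [dl, du]

/-- The standard representatives. -/
def std (m r : ℕ) (σ : SL(2, ℤ)) : Option (Fin r) → M2
  | some b => !![1, (m : ℤ) * (b : ℕ); 0, r]
  | none => (σ : M2) * du r

/-- A chosen diamond matrix. -/
noncomputable def diaH (m r : ℕ) : SL(2, ℤ) := Classical.epsilon (IsDia m r)

/-- The subgroup of `Gsc m` where `r` divides the upper right entry. -/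
def Gup (m r : ℕ) : Subgroup SL(2, ℤ) where
  carrier := {g | g ∈ Gsc m ∧ (r : ℤ) ∣ g 0 1}
  mul_mem' := fun {a b} ha hb => ⟨mul_mem ha.1 hb.1, by
    simp only [Matrix.SpecialLinearGroup.coe_mul, Matrix.mul_apply, Fin.sum_univ_two]
    exact dvd_add (hb.2.mul_left _) (ha.2.mul_right _)⟩
  one_mem' := ⟨one_mem _, by simp⟩
  inv_mem' := fun {a} ha => ⟨inv_mem ha.1, by
    simpa [Matrix.SpecialLinearGroup.coe_inv, Matrix.adjugate_fin_two] using ha.2⟩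

theorem Gup_le (m r : ℕ) : Gup m r ≤ Gsc m := fun _ h => h.1

theorem mahk_Gsc {m : ℕ} {g : SL(2, ℤ)} :
    g ∈ Gsc m ↔ (m : ℤ) ∣ g 0 1 ∧ (m : ℤ) ∣ g 1 0 ∧ (m : ℤ) ∣ g 1 1 - g 0 0 := by
  simp only [mem_Gsc, rd_apply, ZMod.intCast_zmod_eq_zero_iff_dvd,
    ZMod.intCast_eq_intCast_iff_dvd_sub]

theorem le_Gup (m r : ℕ) : Gsc (m * r) ≤ Gup m r := fun _ hg =>
  ⟨Gsc_mono (dvd_mul_right m r) hg,
    (Int.natCast_dvd_natCast.2 (dvd_mul_left r m)).trans (mahk_Gsc.1 hg).1⟩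

theorem mahk_Dl {m r : ℕ} : A ∈ Dl m r ↔ A.det = r ∧ (A 0 1 : ZMod m) = 0 ∧
    (A 1 0 : ZMod m) = 0 ∧ (A 1 1 : ZMod m) = r * A 0 0 := by
  simp only [Dl, Set.mem_ofPred_eq, ← ZMod.intCast_zmod_eq_zero_iff_dvd, Int.cast_sub,
    Int.cast_mul, Int.cast_natCast, sub_eq_zero]

theorem mahk_Du {m r : ℕ} : A ∈ Du m r ↔ A.det = r ∧ (A 0 1 : ZMod m) = 0 ∧
    (A 1 0 : ZMod m) = 0 ∧ (A 0 0 : ZMod m) = r * A 1 1 := by
  simp only [Du, Set.mem_ofPred_eq, ← ZMod.intCast_zmod_eq_zero_iff_dvd, Int.cast_sub,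
    Int.cast_mul, Int.cast_natCast, sub_eq_zero]

theorem mahk_Dl' {m r : ℕ} : A ∈ Dl m r ↔ A.det = r ∧
    ∃ t : ZMod m, A.map (Int.castRingHom (ZMod m)) = t • !![1, 0; 0, (r : ZMod m)] := by
  rw [mahk_Dl]
  refine and_congr_right fun _ => ⟨fun ⟨a, b, c⟩ => ⟨A 0 0, ?_⟩, fun ⟨t, h⟩ => ?_⟩
  · ext i j
    fin_cases i <;> fin_cases j <;> simp [a, b, c, mul_comm]
  · have h0 := congrFun (congrFun h 0) 0
    have h1 := congrFun (congrFun h 0) 1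
    have h2 := congrFun (congrFun h 1) 0
    have h3 := congrFun (congrFun h 1) 1
    simp at h0 h1 h2 h3
    simp [h0, h1, h2, h3, mul_comm]

theorem mahk_mul (m : ℕ) (A B : M2) (i j : Fin 2) : (((A * B) i j : ℤ) : ZMod m) =
    (A i 0 : ZMod m) * B 0 j + (A i 1 : ZMod m) * B 1 j := by
  simp [Matrix.mul_apply, Fin.sum_univ_two]

theorem mahk_dl (m r : ℕ) : dl r ∈ Dl m r := ⟨det_dl r, by simp [dl], by simp [dl], by simp [dl]⟩

theorem mahk_du (m r : ℕ) : du r ∈ Du m r := ⟨det_du r, by simp [du], by simp [du], by simp [du]⟩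

theorem mahk_inv {γ : SL(2, ℤ)} (h : A = (γ : M2) * B) : B = ((γ⁻¹ : SL(2, ℤ)) : M2) * A := by
  rw [h, ← mul_assoc, ← Matrix.SpecialLinearGroup.coe_mul, inv_mul_cancel,
    Matrix.SpecialLinearGroup.coe_one, one_mul]

theorem mahk_congr {ι : Type} {Γ : Subgroup SL(2, ℤ)} {Δ : Set M2} {X Y : ι → M2}
    (h : Reps Γ Δ X) (e : ∀ i, X i = Y i) : Reps Γ Δ Y := funext e ▸ h

/-- Conjugation by a matrix of determinant `r` preserves integrality. -/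
theorem mahk_cj {r : ℕ} (hr : r ≠ 0) (hA : A.det = r) {γ : SL(2, ℤ)} (hγ : γ ∈ Gsc r) :
    ∃ γ' : SL(2, ℤ), A * (γ : M2) = (γ' : M2) * A := by
  obtain ⟨⟨p, hp⟩, ⟨q, hq⟩, ⟨s, hs⟩⟩ := mahk_Gsc.1 hγ
  have h1 : (γ : M2) = γ 0 0 • (1 : M2) + (r : ℤ) • !![0, p; q, s] := by
    ext i j
    fin_cases i <;> fin_cases j <;> simp [← hp, ← hq, ← hs, Matrix.intCast_apply]
  have h2 : A * (γ : M2) = (γ 0 0 • (1 : M2) + A * !![0, p; q, s] * A.adjugate) * A := by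
    rw [add_mul, mul_assoc _ A.adjugate, Matrix.adjugate_mul, hA]
    nth_rw 1 [h1]
    simp only [mul_add, mul_smul_comm, smul_mul_assoc, mul_one, one_mul]
  refine ⟨⟨_, ?_⟩, h2⟩
  have h3 := congrArg Matrix.det h2
  rw [det_mul_SL, Matrix.det_mul, hA] at h3
  exact mul_right_cancel₀ (Int.natCast_ne_zero.2 hr) (h3.symm.trans (one_mul _).symm)

section Hecke

variable {m r : ℕ} {σ : SL(2, ℤ)} (hr : r.Prime) (hm : ¬ r ∣ m)

theorem Dl_left {γ : SL(2, ℤ)} (hγ : γ ∈ Gsc m) (h : A ∈ Dl m r) : (γ : M2) * A ∈ Dl m r := by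
  obtain ⟨a, b, c⟩ := hγ
  obtain ⟨d, e, f, g⟩ := mahk_Dl.1 h
  simp only [rd_apply] at a b c
  refine mahk_Dl.2 ⟨(det_SL_mul γ A).trans d, ?_⟩
  simp only [mahk_mul, a, b, c, e, f, g]
  refine ⟨?_, ?_, ?_⟩ <;> ring

theorem Dl_right {γ : SL(2, ℤ)} (hγ : γ ∈ Gsc m) (h : A ∈ Dl m r) : A * (γ : M2) ∈ Dl m r := by
  obtain ⟨a, b, c⟩ := hγ
  obtain ⟨d, e, f, g⟩ := mahk_Dl.1 h
  simp only [rd_apply] at a b c
  refine mahk_Dl.2 ⟨(det_mul_SL γ A).trans d, ?_⟩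
  simp only [mahk_mul, a, b, c, e, f, g]
  refine ⟨?_, ?_, ?_⟩ <;> ring

theorem Du_right {γ : SL(2, ℤ)} (hγ : γ ∈ Gsc m) (h : A ∈ Du m r) : A * (γ : M2) ∈ Du m r := by
  obtain ⟨a, b, c⟩ := hγ
  obtain ⟨d, e, f, g⟩ := mahk_Du.1 h
  simp only [rd_apply] at a b c
  refine mahk_Du.2 ⟨(det_mul_SL γ A).trans d, ?_⟩
  simp only [mahk_mul, a, b, c, e, f, g]
  refine ⟨?_, ?_, ?_⟩ <;> ring

theorem mem_Du_iff (hσ : IsDia m r σ) : A ∈ Du m r ↔ (σ : M2) * A ∈ Dl m r := by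
  obtain ⟨a, b, c⟩ := hσ
  have d := rd_det m σ
  simp only [rd_apply] at a b c d
  rw [a, c, zero_mul, sub_zero] at d
  rw [mahk_Du, mahk_Dl, det_SL_mul]
  simp only [mahk_mul, a, b, c, zero_mul, add_zero, zero_add]
  refine and_congr_right fun _ => ⟨fun ⟨e, f, g⟩ => ⟨?_, ?_, ?_⟩, fun ⟨e, f, g⟩ => ⟨?_, ?_, ?_⟩⟩
  · rw [e, mul_zero]
  · rw [f, mul_zero]
  · linear_combination -g - (A 0 0 : ZMod m) * d
  · linear_combination (r : ZMod m) * e - (A 0 1 : ZMod m) * d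
  · linear_combination (σ 0 0 : ZMod m) * f - (A 1 0 : ZMod m) * d
  · linear_combination -g - (A 0 0 : ZMod m) * d

include hr hm

theorem Dl_conj {g g' : SL(2, ℤ)}
    (h : !![1, 0; 0, (r : ZMod m)] * rd m g' = rd m g * !![1, 0; 0, (r : ZMod m)]) :
    ((g⁻¹ : SL(2, ℤ)) : M2) * A ∈ Dl m r ↔ A * ((g'⁻¹ : SL(2, ℤ)) : M2) ∈ Dl m r := by
  rw [mahk_Dl', mahk_Dl', det_SL_mul, det_mul_SL, Matrix.map_mul, Matrix.map_mul]
  change _ ∧ (∃ t : ZMod m, rd m g⁻¹ * _ = _) ↔ _ ∧ ∃ t : ZMod m, _ * rd m g'⁻¹ = _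
  have i1 : rd m g * rd m g⁻¹ = 1 := by rw [← rd_mul, mul_inv_cancel, rd_one]
  have i2 : rd m g⁻¹ * rd m g = 1 := by rw [← rd_mul, inv_mul_cancel, rd_one]
  have i3 : rd m g' * rd m g'⁻¹ = 1 := by rw [← rd_mul, mul_inv_cancel, rd_one]
  have i4 : rd m g'⁻¹ * rd m g' = 1 := by rw [← rd_mul, inv_mul_cancel, rd_one]
  refine and_congr_right fun _ => exists_congr fun t => ⟨fun e => ?_, fun e => ?_⟩
  · rw [← one_mul (A.map _), ← i1, mul_assoc (rd m g), e, mul_smul_comm, ← h, smul_mul_assoc,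
      mul_assoc, i3, mul_one]
  · rw [← mul_one (A.map _), ← i4, ← mul_assoc (A.map _), e, smul_mul_assoc, h, mul_smul_comm,
      ← mul_assoc, i2, one_mul]

theorem mahk_coprime : IsCoprime (r : ℤ) (m : ℤ) :=
  Nat.isCoprime_iff_coprime.2 ((Nat.Prime.coprime_iff_not_dvd hr).2 hm)

theorem mahk_unit : ∃ u : ZMod m, u * r = 1 := by
  obtain ⟨a, b, h⟩ := mahk_coprime hr hm
  refine ⟨a, ?_⟩
  have := congrArg (Int.cast : ℤ → ZMod m) h
  simpa using this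

/-- A diamond matrix which relates the two diagonal matrices. -/
theorem mahk_dia : ∃ σ γ : SL(2, ℤ), IsDia m r σ ∧ γ ∈ Gsc m ∧ (σ : M2) * du r = dl r * γ := by
  obtain ⟨a, b, h⟩ := (mahk_coprime hr hm).mul_right (mahk_coprime hr hm)
  refine ⟨⟨!![a, -(b * m); m, r], ?_⟩, ⟨!![a * r, -(b * m); m, 1], ?_⟩, ?_, mahk_Gsc.2 ?_, ?_⟩
  · rw [Matrix.det_fin_two_of]
    linear_combination h
  · rw [Matrix.det_fin_two_of]
    linear_combination h
  · simp [IsDia, rd_apply]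
  · refine ⟨by simp, by simp, b * m, ?_⟩
    change 1 - a * r = _
    linear_combination -h
  · ext i j
    fin_cases i <;> fin_cases j <;> simp [dl, du, Matrix.mul_apply, Fin.sum_univ_two, mul_comm]

theorem isDia_diaH : IsDia m r (diaH m r) :=
  let ⟨σ, _, h, _⟩ := mahk_dia hr hm
  Classical.epsilon_spec ⟨σ, h⟩

theorem mem_of_Dl {γ : SL(2, ℤ)} (hA : A ∈ Dl m r) (h : (γ : M2) * A ∈ Dl m r) : γ ∈ Gsc m := by
  obtain ⟨u, hu⟩ := mahk_unit hr hm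
  obtain ⟨d, e, f, g⟩ := mahk_Dl.1 hA
  obtain ⟨-, e', f', g'⟩ := mahk_Dl.1 h
  have d' := congrArg (Int.cast : ℤ → ZMod m) d
  rw [Matrix.det_fin_two] at d'
  push_cast at d'
  simp only [mahk_mul, e, f, g, mul_zero, add_zero, zero_add, sub_zero] at d' e' f' g'
  have t : (A 0 0 : ZMod m) * A 0 0 = 1 := by
    linear_combination u * d' - ((A 0 0 : ZMod m) * A 0 0 - 1) * hu
  simp only [mem_Gsc, rd_apply]
  refine ⟨?_, ?_, ?_⟩
  · linear_combination u * (A 0 0 : ZMod m) * e' - (γ 0 1 : ZMod m) * t -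
      (γ 0 1 : ZMod m) * (A 0 0 : ZMod m) * (A 0 0 : ZMod m) * hu
  · linear_combination (A 0 0 : ZMod m) * f' - (γ 1 0 : ZMod m) * t
  · linear_combination -u * (A 0 0 : ZMod m) * g' - ((γ 0 0 : ZMod m) - γ 1 1) * t -
      ((γ 0 0 : ZMod m) - γ 1 1) * (A 0 0 : ZMod m) * (A 0 0 : ZMod m) * hu

theorem mahk_beta {a b c d : ℤ} (h : a * d - b * c = r) (h0 : ¬ ((r : ℤ) ∣ a ∧ (r : ℤ) ∣ c)) :
    ∃ β : Fin r, (r : ℤ) ∣ b - a * (m * (β : ℕ)) ∧ (r : ℤ) ∣ d - c * (m * (β : ℕ)) := by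
  have := Fact.mk hr
  have hm' : (m : ZMod r) ≠ 0 := fun e => hm ((ZMod.natCast_eq_zero_iff m r).1 e)
  have h' : (a : ZMod r) * d - b * c = 0 := by
    have := congrArg (Int.cast : ℤ → ZMod r) h
    simpa using this
  obtain ⟨l, h1, h2⟩ : ∃ l : ZMod r, (b : ZMod r) = a * l ∧ (d : ZMod r) = c * l := by
    simp only [← ZMod.intCast_zmod_eq_zero_iff_dvd] at h0
    by_cases ha : (a : ZMod r) = 0
    · have hc : (c : ZMod r) ≠ 0 := fun e => h0 ⟨ha, e⟩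
      refine ⟨d / c, ?_, ?_⟩
      · field_simp
        linear_combination -h'
      · field_simp
    · refine ⟨b / a, ?_, ?_⟩
      · field_simp
      · field_simp
        linear_combination h'
  refine ⟨⟨(l / m).val, ZMod.val_lt _⟩, ?_⟩
  simp only [← ZMod.intCast_zmod_eq_zero_iff_dvd]
  push_cast
  rw [ZMod.natCast_zmod_val, mul_div_cancel₀ _ hm', h1, h2]
  exact ⟨sub_self _, sub_self _⟩

omit hm in
theorem mahk_ne (β : Fin r) (γ : SL(2, ℤ)) :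
    std m r σ (some β) ≠ (γ : M2) * std m r σ none := by
  intro h
  have h1 := congrFun (congrFun h 0) 0
  rw [std, std, ← mul_assoc, Matrix.mul_apply, Fin.sum_univ_two] at h1
  simp only [du, Matrix.of_apply, Matrix.cons_val', Matrix.cons_val_zero, Matrix.cons_val_one,
    Matrix.cons_val_fin_one, mul_zero, add_zero] at h1
  exact hr.not_dvd_one (Int.natCast_dvd_natCast.1 ⟨_, h1.trans (mul_comm _ _)⟩)

theorem reps_std (hσ : IsDia m r σ) : Reps (Gsc m) (Dl m r) (std m r σ) := by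
  have hr0 : (r : ℤ) ≠ 0 := Int.natCast_ne_zero.2 hr.ne_zero
  have hmem : ∀ i, std m r σ i ∈ Dl m r := by
    rintro (_ | β)
    · exact (mem_Du_iff hσ).1 (mahk_du m r)
    · exact ⟨by simp [std], by simp [std], by simp [std], by simp [std]⟩
  refine ⟨hmem, fun B hB => ?_, fun i j γ _ h => ?_⟩
  · suffices h : ∃ (i : Option (Fin r)) (γ : SL(2, ℤ)), B = (γ : M2) * std m r σ i by
      obtain ⟨i, γ, h⟩ := h
      exact ⟨i, γ, mem_of_Dl hr hm (hmem i) (h ▸ hB), h⟩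
    have hd := hB.1
    rw [Matrix.det_fin_two] at hd
    by_cases h0 : (r : ℤ) ∣ B 0 0 ∧ (r : ℤ) ∣ B 1 0
    · obtain ⟨⟨a, ha⟩, ⟨c, hc⟩⟩ := h0
      have hg : (!![a, B 0 1; c, B 1 1] : M2).det = 1 := by
        rw [Matrix.det_fin_two_of]
        refine mul_left_cancel₀ hr0 ?_
        rw [ha, hc] at hd
        linear_combination hd
      refine ⟨none, ⟨_, hg⟩ * σ⁻¹, ?_⟩
      rw [std, ← mul_assoc, ← Matrix.SpecialLinearGroup.coe_mul, inv_mul_cancel_right]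
      ext i j
      fin_cases i <;> fin_cases j <;>
        simp [du, Matrix.mul_apply, Fin.sum_univ_two, ha, hc, mul_comm]
    · obtain ⟨β, ⟨b, hb⟩, ⟨d, hd'⟩⟩ := mahk_beta hr hm hd h0
      refine ⟨some β, ⟨!![B 0 0, b; B 1 0, d], ?_⟩, ?_⟩
      · rw [Matrix.det_fin_two_of]
        refine mul_left_cancel₀ hr0 ?_
        linear_combination hd - B 0 0 * hd' + B 1 0 * hb
      · ext i j
        fin_cases i <;> fin_cases j <;> simp [std, Matrix.mul_apply, Fin.sum_univ_two]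
        · linear_combination hb
        · linear_combination hd'
  · rcases i with _ | β <;> rcases j with _ | β'
    · rfl
    · exact absurd (mahk_inv h) (mahk_ne hr _ _)
    · exact absurd h (mahk_ne hr _ _)
    · have h0 := congrFun (congrFun h 0) 0
      have h1 := congrFun (congrFun h 0) 1
      simp [std, Matrix.mul_apply, Fin.sum_univ_two] at h0 h1
      have h2 : (r : ℤ) ∣ m * ((β : ℕ) - (β' : ℕ)) :=
        ⟨γ 0 1, by linear_combination h1 - (m : ℤ) * (β' : ℕ) * h0⟩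
      have h3 := (mahk_coprime hr hm).dvd_of_dvd_mul_left h2
      have h4 := Int.eq_zero_of_abs_lt_dvd h3 (by
        have := β.2
        have := β'.2
        rw [abs_lt]
        omega)
      exact congrArg some (Fin.ext (by omega))

theorem exists_reps_dl : ∃ γ : Option (Fin r) → SL(2, ℤ), (∀ i, γ i ∈ Gsc m) ∧
    Reps (Gsc m) (Dl m r) fun i => dl r * (γ i : M2) := by
  obtain ⟨σ, γ, hσ, hγ, h⟩ := mahk_dia hr hm
  refine ⟨fun i => i.elim γ fun β => ModularGroup.T ^ ((m : ℤ) * (β : ℕ)), ?_, ?_⟩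
  · rintro (_ | β)
    · exact hγ
    · exact T_zpow_mem_Gsc m _
  · refine mahk_congr (reps_std hr hm hσ) ?_
    rintro (_ | β)
    · exact h
    · simp only [Option.elim, ModularGroup.coe_T_zpow]
      ext i j
      fin_cases i <;> fin_cases j <;> simp [std, dl, Matrix.mul_apply, Fin.sum_univ_two]

theorem exists_reps_du : ∃ γ : Option (Fin r) → SL(2, ℤ), (∀ i, γ i ∈ Gsc m) ∧
    Reps (Gsc m) (Du m r) fun i => du r * (γ i : M2) := by
  obtain ⟨σ, γ₀, hσ, hγ, h⟩ := mahk_dia hr hm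
  obtain ⟨γ, h1, h2⟩ := exists_reps_dl hr hm
  refine ⟨fun i => γ₀⁻¹ * γ i, fun i => mul_mem (inv_mem hγ) (h1 i), ?_⟩
  refine mahk_congr (h2.mul_left (Δ' := Du m r) σ⁻¹ fun B => by
    rw [inv_inv]
    exact mem_Du_iff hσ) fun i => ?_
  rw [mahk_inv h.symm, mul_assoc, mul_assoc, ← Matrix.SpecialLinearGroup.coe_mul,
    mul_inv_cancel_left]

theorem mem_of_Du {γ : SL(2, ℤ)} (hA : A ∈ Du m r) (h : (γ : M2) * A ∈ Du m r) : γ ∈ Gsc m := by
  obtain ⟨σ, -, hσ, -⟩ := mahk_dia hr hm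
  have h1 : σ * γ * σ⁻¹ ∈ Gsc m := mem_of_Dl hr hm ((mem_Du_iff hσ).1 hA) (by
    rw [← mul_assoc, ← Matrix.SpecialLinearGroup.coe_mul, inv_mul_cancel_right,
      Matrix.SpecialLinearGroup.coe_mul, mul_assoc]
    exact (mem_Du_iff hσ).1 h)
  simpa [mul_assoc] using (inferInstance : (Gsc m).Normal).conj_mem _ h1 σ⁻¹

theorem cj_dl : Cj (dl r) (Gup m r) (Gsc m) := by
  rintro γ ⟨hγ, b, hb⟩
  have hd := γ.det_coe
  rw [Matrix.det_fin_two, hb] at hd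
  let γ' : SL(2, ℤ) := ⟨!![γ 0 0, b; r * γ 1 0, γ 1 1], by
    rw [Matrix.det_fin_two_of]
    linear_combination hd⟩
  have h : dl r * (γ : M2) = (γ' : M2) * dl r := by
    ext i j
    fin_cases i <;> fin_cases j <;>
      simp [γ', dl, Matrix.mul_apply, Fin.sum_univ_two, hb, mul_comm]
  exact ⟨γ', mem_of_Dl hr hm (mahk_dl m r) (h ▸ Dl_right hγ (mahk_dl m r)), h⟩

omit hm in
theorem mem_Gup_dl {γ γ' : SL(2, ℤ)} (hγ : γ ∈ Gsc m) (h : dl r * (γ : M2) = (γ' : M2) * dl r) :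
    γ ∈ Gup m r := by
  refine ⟨hγ, γ' 0 1, ?_⟩
  simpa [dl, Matrix.mul_apply, Fin.sum_univ_two, mul_comm] using congrFun (congrFun h 0) 1

omit hm in
theorem mem_Gup_du {γ γ' : SL(2, ℤ)} (hγ : γ ∈ Gsc m) (h : (γ : M2) * du r = du r * (γ' : M2)) :
    γ ∈ Gup m r := by
  refine ⟨hγ, γ' 0 1, ?_⟩
  simpa [du, Matrix.mul_apply, Fin.sum_univ_two] using congrFun (congrFun h 0) 1

theorem cj_Dl (h : A ∈ Dl m r) : Cj A (Gsc (m * r)) (Gsc m) := fun _ hγ =>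
  let ⟨γ', e⟩ := mahk_cj hr.ne_zero h.1 (Gsc_mono (dvd_mul_left r m) hγ)
  ⟨γ', mem_of_Dl hr hm h (e ▸ Dl_right (Gsc_mono (dvd_mul_right m r) hγ) h), e⟩

theorem cj_Du (h : A ∈ Du m r) : Cj A (Gsc (m * r)) (Gsc m) := fun _ hγ =>
  let ⟨γ', e⟩ := mahk_cj hr.ne_zero h.1 (Gsc_mono (dvd_mul_left r m) hγ)
  ⟨γ', mem_of_Du hr hm h (e ▸ Du_right (Gsc_mono (dvd_mul_right m r) hγ) h), e⟩

end Hecke

end Pool.Agent.Lib.MP_0d42ed_ag.FM.C9
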