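import Pool.Agent.Lib.MP_60ff09_nt.Cut.MPkg

/-! Integral matrices and coset representatives. -/

set_option autoImplicit false

namespace Pool.Agent.Lib.MP_0d42ed_ag.FM.C9

open scoped MatrixGroups UpperHalfPlane

/-- Integral matrices. -/
abbrev M2 : Type := Matrix (Fin 2) (Fin 2) ℤ

/-- An integral matrix as a real invertible matrix. -/
noncomputable def gm (A : M2) : GL (Fin 2) ℝ :=
  if h : (A.map (Int.castRingHom ℝ)).det ≠ 0 then Matrix.GeneralLinearGroup.mkOfDetNeZero _ h else 1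

variable {A B : M2}

theorem mamat_det (A : M2) : (A.map (Int.castRingHom ℝ)).det = (A.det : ℝ) :=
  ((Int.castRingHom ℝ).map_det A).symm

theorem mamat_val (hA : A.det ≠ 0) : (gm A).val = A.map (Int.castRingHom ℝ) := by
  rw [gm, dif_pos (by rw [mamat_det]; exact_mod_cast hA)]
  rfl

theorem gm_apply (hA : A.det ≠ 0) (i j : Fin 2) : gm A i j = (A i j : ℝ) :=
  congrFun (congrFun (mamat_val hA) i) j

theorem gm_det (hA : A.det ≠ 0) : (gm A).val.det = (A.det : ℝ) := by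
  rw [mamat_val hA, mamat_det]

theorem gm_det' (hA : A.det ≠ 0) : (gm A).det.val = (A.det : ℝ) := gm_det hA

theorem gm_pos (hA : 0 < A.det) : 0 < (gm A).val.det := by
  rw [gm_det hA.ne']
  exact_mod_cast hA

theorem gm_mul (hA : A.det ≠ 0) (hB : B.det ≠ 0) : gm (A * B) = gm A * gm B :=
  Units.ext (by
    rw [Units.val_mul, mamat_val hA, mamat_val hB,
      mamat_val (by rw [Matrix.det_mul]; exact mul_ne_zero hA hB), Matrix.map_mul])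

theorem gm_SL (γ : SL(2, ℤ)) : gm γ = (γ : GL (Fin 2) ℝ) :=
  Units.ext (mamat_val (by rw [γ.det_coe]; exact one_ne_zero))

theorem gm_one : gm 1 = 1 := Units.ext (by rw [mamat_val (by simp)]; simp)

theorem gm_SL_smul (γ : SL(2, ℤ)) (τ : ℍ) : gm γ • τ = γ • τ := by
  rw [gm_SL, ModularGroup.sl_moeb]

theorem mamat_smul (hA : 0 < A.det) (τ : ℍ) :
    ((gm A • τ : ℍ) : ℂ) = (A 0 0 * τ + A 0 1) / (A 1 0 * τ + A 1 1) := by
  rw [UpperHalfPlane.coe_smul_of_det_pos (gm_pos hA), UpperHalfPlane.num, UpperHalfPlane.denom]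
  simp only [gm_apply hA.ne', Complex.ofReal_intCast]

theorem gm_smul_smul {c : ℤ} (hc : c ≠ 0) (hA : 0 < A.det) (τ : ℍ) : gm (c • A) • τ = gm A • τ := by
  have h : 0 < (c • A).det := by
    rw [Matrix.det_smul, Fintype.card_fin]
    positivity
  have hc' : (c : ℂ) ≠ 0 := Int.cast_ne_zero.2 hc
  refine UpperHalfPlane.ext ?_
  rw [mamat_smul h, mamat_smul hA]
  simp only [Matrix.smul_apply, smul_eq_mul, Int.cast_mul, mul_assoc, ← mul_add]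
  rw [mul_div_mul_left _ _ hc']

theorem coe_gm_smul (hA : 0 < A.det) (τ : ℍ) :
    ((gm A • τ : ℍ) : ℂ) = (A 0 0 * τ + A 0 1) / (A 1 0 * τ + A 1 1) := mamat_smul hA τ

theorem coe_tri_smul {a d : ℤ} (b : ℤ) (ha : 0 < a) (hd : 0 < d) (τ : ℍ) :
    ((gm !![a, b; 0, d] • τ : ℍ) : ℂ) = (a * τ + b) / d := by
  rw [coe_gm_smul (by simpa [Matrix.det_fin_two] using mul_pos ha hd)]
  simp

theorem det_SL_mul (γ : SL(2, ℤ)) (A : M2) : ((γ : M2) * A).det = A.det := by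
  rw [Matrix.det_mul, γ.det_coe, one_mul]

theorem det_mul_SL (γ : SL(2, ℤ)) (A : M2) : (A * (γ : M2)).det = A.det := by
  rw [Matrix.det_mul, γ.det_coe, mul_one]

/-- The normal form of Hermite. -/
theorem hnf (hA : 0 < A.det) :
    ∃ (γ : SL(2, ℤ)) (a b d : ℤ), 0 < a ∧ 0 < d ∧ A = (γ : M2) * !![a, b; 0, d] := by
  rw [Matrix.det_fin_two] at hA
  have h0 : 0 < Int.gcd (A 0 0) (A 1 0) := Int.gcd_pos_iff.2 (by
    by_contra! h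
    simp [h.1, h.2] at hA)
  obtain ⟨p, r, h1, hp, hr⟩ := Int.exists_gcd_one h0
  obtain ⟨x, y, h2⟩ := Int.isCoprime_iff_gcd_eq_one.2 h1
  have h3 : (0 : ℤ) < Int.gcd (A 0 0) (A 1 0) := by exact_mod_cast h0
  generalize (Int.gcd (A 0 0) (A 1 0) : ℤ) = g at hp hr h3
  refine ⟨⟨!![p, -y; r, x], by rw [Matrix.det_fin_two_of]; linear_combination h2⟩, g,
    x * A 0 1 + y * A 1 1, p * A 1 1 - r * A 0 1, h3,
    (mul_pos_iff_of_pos_left h3).1 (by rw [hp, hr] at hA; linarith), ?_⟩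
  ext i j
  fin_cases i <;> fin_cases j <;> simp [Matrix.mul_apply, Fin.sum_univ_two]
  · exact hp
  · linear_combination (-A 0 1) * h2
  · exact hr
  · linear_combination (-A 1 1) * h2

theorem mamat_mem {m : ℕ} {g : SL(2, ℤ)} :
    g ∈ Gsc m ↔ (m : ℤ) ∣ g 0 1 ∧ (m : ℤ) ∣ g 1 0 ∧ (m : ℤ) ∣ g 0 0 - g 1 1 := by
  rw [mem_Gsc, rd_apply, rd_apply, rd_apply, rd_apply, ← sub_eq_zero (a := ((g 0 0 : ℤ) : ZMod m)),
    ← Int.cast_sub]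
  simp only [ZMod.intCast_zmod_eq_zero_iff_dvd]

theorem mamat_inv (g : SL(2, ℤ)) : (g : M2) * (g⁻¹ : SL(2, ℤ)) = 1 := by
  rw [← Matrix.SpecialLinearGroup.coe_mul, mul_inv_cancel, Matrix.SpecialLinearGroup.coe_one]

theorem mamat_inv' (g : SL(2, ℤ)) : ((g⁻¹ : SL(2, ℤ)) : M2) * (g : M2) = 1 := by
  rw [← Matrix.SpecialLinearGroup.coe_mul, inv_mul_cancel, Matrix.SpecialLinearGroup.coe_one]

theorem T_zpow_mem_Gsc (m : ℕ) (b : ℤ) : ModularGroup.T ^ (m * b) ∈ Gsc m := by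
  simp [mem_Gsc, rd_apply, ModularGroup.coe_T_zpow]

theorem Gsc_mono {m n : ℕ} (h : m ∣ n) : Gsc n ≤ Gsc m := fun g hg => by
  have h' : (m : ℤ) ∣ n := Int.natCast_dvd_natCast.2 h
  rw [mamat_mem] at hg ⊢
  exact ⟨h'.trans hg.1, h'.trans hg.2.1, h'.trans hg.2.2⟩

/-- The core of the Hecke subgroup. -/
theorem mem_Gsc_of_conj {m : ℕ} {g : SL(2, ℤ)} (h : ∀ u : SL(2, ℤ), (m : ℤ) ∣ (u * g * u⁻¹) 1 0) :
    g ∈ Gsc m := by
  have h1 := h 1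
  have h2 := h ModularGroup.S
  have h3 := h ⟨!![1, 0; 1, 1], by simp⟩
  simp [Matrix.SpecialLinearGroup.coe_inv, Matrix.adjugate_fin_two, Matrix.mul_apply,
    Fin.sum_univ_two, ModularGroup.S, Matrix.vecMul, dotProduct] at h1 h2 h3
  refine mamat_mem.2 ⟨h2, h1, ?_⟩
  exact ((h3.sub h1).add h2).trans (dvd_of_eq (by ring))

/-- `A Γ₁ A⁻¹` is contained in `Γ₂`. -/
def Cj (A : M2) (Γ₁ Γ₂ : Subgroup SL(2, ℤ)) : Prop :=
  ∀ γ ∈ Γ₁, ∃ γ' ∈ Γ₂, A * (γ : M2) = (γ' : M2) * A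

theorem Cj.of_le {Γ₁ Γ₂ : Subgroup SL(2, ℤ)} (h : Γ₁ ≤ Γ₂) : Cj 1 Γ₁ Γ₂ :=
  fun γ hγ => ⟨γ, h hγ, by simp⟩

theorem Cj.normal (Γ : Subgroup SL(2, ℤ)) [h : Γ.Normal] (g : SL(2, ℤ)) : Cj g Γ Γ :=
  fun γ hγ => ⟨g * γ * g⁻¹, h.conj_mem γ hγ g, by
    rw [← Matrix.SpecialLinearGroup.coe_mul, ← Matrix.SpecialLinearGroup.coe_mul,
      inv_mul_cancel_right]⟩

theorem Cj.mono {Γ₁ Γ₁' Γ₂ Γ₂' : Subgroup SL(2, ℤ)} (h : Cj A Γ₁ Γ₂) (h1 : Γ₁' ≤ Γ₁)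
    (h2 : Γ₂ ≤ Γ₂') : Cj A Γ₁' Γ₂' := fun γ hγ =>
  let ⟨γ', a, b⟩ := h γ (h1 hγ); ⟨γ', h2 a, b⟩

theorem Cj.mul {Γ₁ Γ₂ Γ₃ : Subgroup SL(2, ℤ)} (h : Cj A Γ₂ Γ₃) (h' : Cj B Γ₁ Γ₂) :
    Cj (A * B) Γ₁ Γ₃ := fun γ hγ => by
  obtain ⟨γ', a, b⟩ := h' γ hγ
  obtain ⟨γ'', a', b'⟩ := h γ' a
  exact ⟨γ'', a', by rw [mul_assoc, b, ← mul_assoc, b', mul_assoc]⟩

theorem cj_diag (m : ℕ) (hm : 0 < m) (u : SL(2, ℤ)) : Cj (!![(m : ℤ), 0; 0, 1] * (u : M2)) (Gsc m) ⊤ :=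
  fun γ hγ => by
  obtain ⟨c, hc⟩ := (mamat_mem.1 ((inferInstance : (Gsc m).Normal).conj_mem γ hγ u)).2.1
  have h1 : (u : M2) * (γ : M2) = (u * γ * u⁻¹ : SL(2, ℤ)) * (u : M2) := by
    rw [← Matrix.SpecialLinearGroup.coe_mul, ← Matrix.SpecialLinearGroup.coe_mul,
      inv_mul_cancel_right]
  rw [mul_assoc, h1]
  generalize u * γ * u⁻¹ = g at hc
  have h2 := g.det_coe
  rw [Matrix.det_fin_two, hc] at h2
  refine ⟨⟨!![g 0 0, m * g 0 1; c, g 1 1], by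
    rw [Matrix.det_fin_two_of]; linear_combination h2⟩, trivial, ?_⟩
  rw [← mul_assoc, ← mul_assoc]
  congr 1
  ext i j
  fin_cases i <;> fin_cases j <;> simp [Matrix.mul_apply, Fin.sum_univ_two, hc, mul_comm]

theorem dvd_of_diag {m : ℕ} {g γ : SL(2, ℤ)}
    (h : !![(m : ℤ), 0; 0, 1] * (g : M2) = (γ : M2) * !![(m : ℤ), 0; 0, 1]) : (m : ℤ) ∣ g 1 0 := by
  have h1 := congrFun (congrFun h 1) 0
  simp [Matrix.mul_apply, Fin.sum_univ_two] at h1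
  exact ⟨γ 1 0, by rw [h1, mul_comm]⟩

/-- `A` is a system of representatives for the left action of `Γ` on `Δ`. -/
structure Reps {ι : Type} (Γ : Subgroup SL(2, ℤ)) (Δ : Set M2) (A : ι → M2) : Prop where
  mem : ∀ i, A i ∈ Δ
  ex : ∀ B ∈ Δ, ∃ i, ∃ γ ∈ Γ, B = (γ : M2) * A i
  uniq : ∀ i j, ∀ γ ∈ Γ, A i = (γ : M2) * A j → i = j

section Reps

variable {ι κ : Type} {Γ : Subgroup SL(2, ℤ)} {Δ Δ' : Set M2} {X : ι → M2} {Y : κ → M2}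

theorem Reps.equiv (h : Reps Γ Δ X) (h' : Reps Γ Δ Y) :
    ∃ e : ι ≃ κ, ∀ i, ∃ γ ∈ Γ, X i = (γ : M2) * Y (e i) := by
  choose f γ hγ hf using fun i => h'.ex _ (h.mem i)
  choose g δ hδ hg using fun j => h.ex _ (h'.mem j)
  refine ⟨⟨f, g, fun i => (h.uniq _ _ _ (mul_mem (hγ i) (hδ (f i))) ?_).symm,
    fun j => (h'.uniq _ _ _ (mul_mem (hδ j) (hγ (g j))) ?_).symm⟩, fun i => ⟨γ i, hγ i, hf i⟩⟩
  · rw [Matrix.SpecialLinearGroup.coe_mul, mul_assoc, ← hg, ← hf]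
  · rw [Matrix.SpecialLinearGroup.coe_mul, mul_assoc, ← hf, ← hg]

theorem Reps.mul_right (h : Reps Γ Δ X) (g : SL(2, ℤ)) (hΔ : ∀ B, B ∈ Δ' ↔ B * (g⁻¹ : SL(2, ℤ)) ∈ Δ) :
    Reps Γ Δ' fun i => X i * (g : M2) := by
  refine ⟨fun i => (hΔ _).2 ?_, fun B hB => ?_, fun i j γ hγ e => h.uniq i j γ hγ ?_⟩
  · rw [mul_assoc, mamat_inv, mul_one]
    exact h.mem i
  · obtain ⟨i, γ, hγ, e⟩ := h.ex _ ((hΔ B).1 hB)
    exact ⟨i, γ, hγ, by rw [← mul_assoc, ← e, mul_assoc, mamat_inv', mul_one]⟩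
  · rw [← mul_one (X i), ← mamat_inv g, ← mul_assoc, e, mul_assoc, mul_assoc, mamat_inv, mul_one]

theorem Reps.mul_left [Γ.Normal] (h : Reps Γ Δ X) (g : SL(2, ℤ))
    (hΔ : ∀ B, B ∈ Δ' ↔ (g⁻¹ : SL(2, ℤ)) * B ∈ Δ) : Reps Γ Δ' fun i => (g : M2) * X i := by
  have hn : Γ.Normal := inferInstance
  refine ⟨fun i => (hΔ _).2 ?_, fun B hB => ?_,
    fun i j γ hγ e => h.uniq i j _ (hn.conj_mem' γ hγ g) ?_⟩
  · rw [← mul_assoc, mamat_inv', one_mul]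
    exact h.mem i
  · obtain ⟨i, γ, hγ, e⟩ := h.ex _ ((hΔ B).1 hB)
    refine ⟨i, _, hn.conj_mem γ hγ g, ?_⟩
    rw [← mul_assoc, ← Matrix.SpecialLinearGroup.coe_mul, inv_mul_cancel_right,
      Matrix.SpecialLinearGroup.coe_mul, mul_assoc, ← e, ← mul_assoc, mamat_inv, one_mul]
  · rw [Matrix.SpecialLinearGroup.coe_mul, Matrix.SpecialLinearGroup.coe_mul, mul_assoc, mul_assoc,
      ← e, ← mul_assoc, mamat_inv', one_mul]

end Reps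

end Pool.Agent.Lib.MP_0d42ed_ag.FM.C9
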