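import Pool.Agent.Lib.MP_60ff09_nt.Cut.MACf
import Pool.Agent.Lib.MP_0d42ed_ag.Mod.MAWt1

/-! Mean values and the scalar product of Petersson. -/

set_option autoImplicit false

namespace Pool.Agent.Lib.MP_0d42ed_ag.FM.C9

open UpperHalfPlane MeasureTheory
open scoped MatrixGroups ENNReal Manifold

/-- A chosen weight. -/
noncomputable def wt (Γ : Subgroup SL(2, ℤ)) : ℍ → ℝ≥0∞ :=
  Classical.epsilon (IsWt (Γ.map (Matrix.SpecialLinearGroup.mapGL ℝ)))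

/-- The mean value over the quotient. -/
noncomputable def mnW (Γ : Subgroup SL(2, ℤ)) (φ : ℍ → ℂ) : ℂ := ∫ τ, φ τ ∂volume.withDensity (wt Γ)

variable {Γ Γ₁ Γ₂ : Subgroup SL(2, ℤ)} [Γ.FiniteIndex] [Γ₁.FiniteIndex] [Γ₂.FiniteIndex] {A : M2}
  {f f' g : ℍ → ℂ}

theorem mapet_countable (Γ : Subgroup SL(2, ℤ)) :
    Countable (Γ.map (Matrix.SpecialLinearGroup.mapGL ℝ)) := by
  have : Countable (Matrix (Fin 2) (Fin 2) ℤ) := inferInstanceAs (Countable (Fin 2 → Fin 2 → ℤ))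
  have : Countable SL(2, ℤ) := Subtype.countable
  exact ((Set.to_countable (Γ : Set SL(2, ℤ))).image _).to_subtype

theorem isWt_wt (Γ : Subgroup SL(2, ℤ)) [Γ.FiniteIndex] :
    IsWt (Γ.map (Matrix.SpecialLinearGroup.mapGL ℝ)) (wt Γ) := by
  obtain ⟨w, hw⟩ := exists_wt_one
  have := mapet_countable ⊤
  rw [MonoidHom.range_eq_map] at hw
  refine Classical.epsilon_spec (hw.sub (Subgroup.map_mono le_top) ?_)
  rw [← MonoidHom.range_eq_map]
  exact Subgroup.IsArithmetic.is_commensurable.1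

theorem mapet_arith (hA : A.det ≠ 0) (Γ : Subgroup SL(2, ℤ)) [Γ.FiniteIndex] :
    ((Γ.map (Matrix.SpecialLinearGroup.mapGL ℝ)).map
      (MulAut.conj (gm A)).toMonoidHom).IsArithmetic := by
  have h : (A.map (Int.castRingHom ℚ)).det ≠ 0 := by
    rw [← RingHom.mapMatrix_apply, ← RingHom.map_det]
    exact Int.cast_ne_zero.2 hA
  have e : gm A = (Matrix.GeneralLinearGroup.mkOfDetNeZero _ h).map (Rat.castHom ℝ) := by
    ext i j
    rw [gm_apply hA]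
    simp
  rw [e]
  exact Subgroup.IsArithmetic.conj _ _

theorem mn_comp (hA : 0 < A.det) (h : Cj A Γ₁ Γ₂) {φ : ℍ → ℂ} (hφ : Measurable φ)
    (hi : ∀ γ ∈ Γ₂, ∀ τ, φ (γ • τ) = φ τ) : mnW Γ₁ (fun τ => φ (gm A • τ)) = mnW Γ₂ φ := by
  have := mapet_countable Γ₂
  have h1 := mapet_arith hA.ne' Γ₁
  have h2 : (Γ₂.map (Matrix.SpecialLinearGroup.mapGL ℝ)).IsArithmetic := inferInstance
  unfold mnW
  rw [integral_conj (isWt_wt Γ₁).meas (gm A) hφ]
  refine IsWt.integral_eq (((isWt_wt Γ₁).conj (gm A)).mono ?_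
    (h1.is_commensurable.trans h2.is_commensurable.symm).1) (isWt_wt Γ₂) hφ ?_
  · rintro _ ⟨_, ⟨γ, hγ, rfl⟩, rfl⟩
    obtain ⟨γ', hγ', e⟩ := h γ hγ
    refine ⟨γ', hγ', ?_⟩
    have e1 := congrArg gm e
    rw [gm_mul hA.ne' (by simp), gm_mul (by simp) hA.ne', gm_SL, gm_SL] at e1
    exact eq_mul_inv_of_mul_eq e1.symm
  · rintro _ ⟨γ, hγ, rfl⟩ τ
    exact hi γ hγ τ

/-- The scalar product. -/
noncomputable def pet (Γ : Subgroup SL(2, ℤ)) (f g : ℍ → ℂ) : ℂ := mnW Γ (petersson 2 f g)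

/-- The cusp form attached to an element of `Cf`. -/
def mapetForm (hf : f ∈ Cf Γ) : CuspForm (Γ.map (Matrix.SpecialLinearGroup.mapGL ℝ)) 2 where
  toFun := f
  slash_action_eq' := by
    rintro _ ⟨γ, hγ, rfl⟩
    exact (sl_SL f γ).symm.trans (hf.2.1 γ hγ)
  holo' := hf.1
  zero_at_cusps' hc := by
    rw [Subgroup.IsArithmetic.isCusp_iff_isCusp_SL2Z] at hc
    rw [OnePoint.isZeroAt_iff_forall_SL2Z hc]
    intro γ _
    rw [← sl_SL]
    exact hf.2.2 γ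

omit [Γ.FiniteIndex] in
theorem mapet_cont (hf : f ∈ Cf Γ) (hg : g ∈ Cf Γ) : Continuous (petersson 2 f g) :=
  petersson_continuous 2 hf.1.continuous hg.1.continuous

omit [Γ.FiniteIndex] in
theorem mapet_inv (hf : f ∈ Cf Γ) (hg : g ∈ Cf Γ) :
    ∀ γ ∈ Γ, ∀ τ, petersson 2 f g (γ • τ) = petersson 2 f g τ := fun γ hγ τ => by
  rw [← petersson_slash_SL, ← sl_SL, ← sl_SL, hf.2.1 γ hγ, hg.2.1 γ hγ]

theorem pet_int (Γ : Subgroup SL(2, ℤ)) [Γ.FiniteIndex] (hf : f ∈ Cf Γ₁) (hg : g ∈ Cf Γ₁) :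
    Integrable (petersson 2 f g) (volume.withDensity (wt Γ)) := by
  have := (isWt_wt Γ).prob
  obtain ⟨C, hC⟩ := CuspFormClass.petersson_bounded_left 2 _ (mapetForm hf) (mapetForm hg)
  exact Integrable.of_bound (mapet_cont hf hg).aestronglyMeasurable C (.of_forall hC)

theorem pet_add (hf : f ∈ Cf Γ) (hf' : f' ∈ Cf Γ) (hg : g ∈ Cf Γ) :
    pet Γ g (f + f') = pet Γ g f + pet Γ g f' := by
  unfold pet mnW
  rw [← integral_add (pet_int Γ hg hf) (pet_int Γ hg hf')]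
  congr 1
  funext τ
  simp only [petersson, Pi.add_apply]
  ring

omit [Γ.FiniteIndex] in
theorem pet_smul (c : ℂ) (f g : ℍ → ℂ) : pet Γ g (c • f) = c * pet Γ g f := by
  unfold pet mnW
  rw [← integral_const_mul]
  congr 1
  funext τ
  simp only [petersson, Pi.smul_apply, smul_eq_mul]
  ring

omit [Γ.FiniteIndex] in
theorem pet_symm (f g : ℍ → ℂ) : (starRingEnd ℂ) (pet Γ f g) = pet Γ g f := by
  unfold pet mnW
  rw [← _root_.integral_conj]
  congr 1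
  funext τ
  exact (petersson_symm 2 f g τ).symm

theorem pet_pos (hf : f ∈ Cf Γ) (h : f ≠ 0) : 0 < (pet Γ f f).re := by
  have := mapet_countable Γ
  have e : ∀ τ, petersson 2 f f τ = ((‖f τ‖ ^ 2 * τ.im ^ 2 : ℝ) : ℂ) := fun τ => by
    rw [petersson, Complex.conj_mul']
    push_cast
    rfl
  have hi := (pet_int Γ hf hf).re
  have e' : (fun τ => RCLike.re (petersson 2 f f τ)) = fun τ => ‖f τ‖ ^ 2 * τ.im ^ 2 :=
    funext fun τ => by rw [e]; exact Complex.ofReal_re _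
  rw [e'] at hi
  have h0 : 0 ≤ fun τ : ℍ => ‖f τ‖ ^ 2 * τ.im ^ 2 := fun τ => by positivity
  unfold pet mnW
  rw [funext e, integral_complex_ofReal, Complex.ofReal_re]
  refine lt_of_le_of_ne (integral_nonneg h0) fun h1 => h ?_
  have h2 := (integral_eq_zero_iff_of_nonneg h0 hi).1 h1.symm
  have h3 := (isWt_wt Γ).eq_zero (mapet_cont hf hf) (by
    rintro _ ⟨γ, hγ, rfl⟩ τ
    exact mapet_inv hf hf γ hγ τ) (h2.mono fun τ hτ => by
      rw [e, show ‖f τ‖ ^ 2 * τ.im ^ 2 = 0 from hτ]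
      rfl)
  funext τ
  have h4 := congrFun h3 τ
  rw [e, Pi.zero_apply, Complex.ofReal_eq_zero, mul_eq_zero] at h4
  exact norm_eq_zero.1 (pow_eq_zero_iff two_ne_zero |>.1
    (h4.resolve_right (pow_ne_zero _ τ.im_ne_zero)))

theorem pet_sl (hA : 0 < A.det) (h : Cj A Γ₁ Γ₂) (hf : f ∈ Cf Γ₂) (hg : g ∈ Cf Γ₂) :
    pet Γ₁ (sl f A) (sl g A) = pet Γ₂ f g := by
  unfold pet
  rw [← mn_comp hA h (mapet_cont hf hg).measurable (mapet_inv hf hg)]
  congr 1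
  funext τ
  unfold sl
  rw [petersson_slash, sub_self, zpow_zero, one_mul, σ,
    if_pos (show 0 < (gm A).det.val from gm_pos hA)]
  rfl

theorem mapet_mono (h : Γ₁ ≤ Γ₂) (hf : f ∈ Cf Γ₂) (hg : g ∈ Cf Γ₂) : pet Γ₁ f g = pet Γ₂ f g := by
  have := pet_sl (A := 1) (by simp) (Cj.of_le h) hf hg
  rwa [sl_one, sl_one] at this

theorem mapet_sum {ι : Type} (s : Finset ι) {F : ι → ℍ → ℂ} (hF : ∀ i, F i ∈ Cf Γ)
    (hg : g ∈ Cf Γ) : pet Γ g (∑ i ∈ s, F i) = ∑ i ∈ s, pet Γ g (F i) := by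
  classical
  induction s using Finset.induction_on with
  | empty =>
    have := pet_smul (Γ := Γ) 0 0 g
    rwa [zero_mul, smul_zero] at this
  | insert i s hi ih =>
    rw [Finset.sum_insert hi, Finset.sum_insert hi,
      pet_add (hF i) (Submodule.sum_mem _ fun j _ => hF j) hg, ih]

theorem mapet_sum' {ι : Type} (s : Finset ι) {F : ι → ℍ → ℂ} (hF : ∀ i, F i ∈ Cf Γ)
    (hg : g ∈ Cf Γ) : pet Γ (∑ i ∈ s, F i) g = ∑ i ∈ s, pet Γ (F i) g := by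
  rw [← pet_symm, mapet_sum s hF hg, map_sum]
  exact Finset.sum_congr rfl fun i _ => pet_symm _ _

theorem mapet_cj (n r : ℕ) : Cj (dl r) (Gsc (n * r)) (Gsc n) := by
  intro γ hγ
  have hγ' := Gsc_mono (Dvd.intro r rfl) hγ
  obtain ⟨b, hb⟩ := (ZMod.intCast_zmod_eq_zero_iff_dvd _ _).1 hγ.1
  have hd := γ.det_coe
  rw [Matrix.det_fin_two, hb] at hd
  refine ⟨⟨!![γ 0 0, n * b; r * γ 1 0, γ 1 1], ?_⟩, ⟨?_, ?_, ?_⟩, ?_⟩
  · rw [Matrix.det_fin_two_of]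
    push_cast at hd
    linear_combination hd
  · simp [rd_apply]
  · have := hγ'.2.1
    rw [rd_apply] at this
    simp [rd_apply, this]
  · simpa [rd_apply] using hγ'.2.2
  · ext i j
    fin_cases i <;> fin_cases j <;> simp [dl, Matrix.mul_apply, Fin.sum_univ_two, hb] <;> ring

theorem pet_hk {m r : ℕ} [NeZero m] {σ : SL(2, ℤ)} (hr : r.Prime) (hm : ¬ r ∣ m) (hσ : IsDia m r σ)
    (hf : f ∈ Cf (Gsc m)) (hg : g ∈ Cf (Gsc m)) :
    pet (Gsc m) (hk m r f) g = pet (Gsc m) f (hk m r (sl g (σ⁻¹ : SL(2, ℤ)))) := by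
  have : NeZero r := ⟨hr.ne_zero⟩
  have hr0 : (0 : ℤ) < r := by exact_mod_cast hr.pos
  have hl : 0 < (dl r).det := by rwa [det_dl]
  have hu : 0 < (du r).det := by rwa [det_du]
  have hle : Gsc (m * r) ≤ Gsc m := Gsc_mono (Dvd.intro r rfl)
  have hf1 := Cf_mono hle hf
  have hg1 := Cf_mono hle hg
  have hfl : sl f (dl r) ∈ Cf (Gsc (m * r)) := sl_mem_Cf hl (mapet_cj m r) hf
  have hgu : sl g (du r) ∈ Cf (Gsc (m * r)) :=
    sl_mem_Cf hu (cj_Du hr hm ⟨det_du r, by simp [du]⟩) hg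
  obtain ⟨γ, hγ, R⟩ := exists_reps_dl hr hm
  obtain ⟨γ', hγ', R'⟩ := exists_reps_du hr hm
  have key : pet (Gsc (m * r)) (sl f (dl r)) g = pet (Gsc (m * r)) f (sl g (du r)) := by
    rw [← pet_sl hl (mapet_cj (m * r) r) hf1 hgu, ← sl_mul hu.ne' hl.ne', du_mul_dl,
      sl_scalar hr0.ne' (by simp), sl_one]
    exact (mapet_mono (Gsc_mono (Dvd.intro r rfl)) hfl hg1).symm
  rw [← mapet_mono hle (hk_mem hr hm hf) hg,
    ← mapet_mono hle hf (hk_mem hr hm (sl_mem_Gsc _ hg)), hk_eq hr hm hf R, hk_du hr hm hg hσ R']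
  simp only [fun i => sl_mul hl.ne' (B := (γ i : M2)) (by simp) f,
    fun i => sl_mul hu.ne' (B := (γ' i : M2)) (by simp) g]
  rw [mapet_sum' _ (fun i => sl_mem_Gsc _ hfl) hg1, mapet_sum _ (fun i => sl_mem_Gsc _ hgu) hf1]
  refine Finset.sum_congr rfl fun i _ => ?_
  have a := pet_sl (A := (γ i : M2)) (by simp) (Cj.normal _ (γ i)) hfl hg1
  have b := pet_sl (A := (γ' i : M2)) (by simp) (Cj.normal _ (γ' i)) hf1 hgu
  rw [hg.2.1 _ (hγ i)] at a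
  rw [hf.2.1 _ (hγ' i)] at b
  rw [a, b, key]

end Pool.Agent.Lib.MP_0d42ed_ag.FM.C9
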