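import Mathlib

/-! The modular part: what the algebra uses from the analysis. -/

set_option autoImplicit false

namespace Pool.Agent.Lib.MP_0d42ed_ag.FM.C9

open scoped MatrixGroups UpperHalfPlane

/-- Reduction of an integral matrix. -/
def rd (m : ℕ) (g : SL(2, ℤ)) : Matrix (Fin 2) (Fin 2) (ZMod m) :=
  (g : Matrix (Fin 2) (Fin 2) ℤ).map (Int.castRingHom (ZMod m))

theorem rd_apply (m : ℕ) (g : SL(2, ℤ)) (i j : Fin 2) : rd m g i j = ((g i j : ℤ) : ZMod m) := rfl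

theorem rd_mul (m : ℕ) (g h : SL(2, ℤ)) : rd m (g * h) = rd m g * rd m h := by
  simp only [rd, Matrix.SpecialLinearGroup.coe_mul, Matrix.map_mul]

theorem rd_one (m : ℕ) : rd m 1 = 1 := by
  simp [rd]

theorem rd_det (m : ℕ) (g : SL(2, ℤ)) :
    rd m g 0 0 * rd m g 1 1 - rd m g 0 1 * rd m g 1 0 = 1 := by
  have h := g.det_coe
  rw [Matrix.det_fin_two] at h
  simp only [rd_apply]
  exact_mod_cast congrArg (Int.cast : ℤ → ZMod m) h

theorem rd_inv (m : ℕ) (g : SL(2, ℤ)) :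
    rd m g⁻¹ = !![rd m g 1 1, - rd m g 0 1; - rd m g 1 0, rd m g 0 0] := by
  ext i j
  fin_cases i <;> fin_cases j <;>
    simp [rd_apply, Matrix.SpecialLinearGroup.coe_inv, Matrix.adjugate_fin_two]

/-- Matrices which are scalar modulo `m`. -/
def Gsc (m : ℕ) : Subgroup SL(2, ℤ) where
  carrier := {g | rd m g 0 1 = 0 ∧ rd m g 1 0 = 0 ∧ rd m g 0 0 = rd m g 1 1}
  mul_mem' := by
    rintro g h ⟨a, b, c⟩ ⟨a', b', c'⟩
    simp [rd_mul, Matrix.mul_apply, Fin.sum_univ_two, a, b, c, a', b', c']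
  one_mem' := by simp [rd_one]
  inv_mem' := by
    rintro g ⟨a, b, c⟩
    simp [rd_inv, a, b, c]

theorem mem_Gsc {m : ℕ} {g : SL(2, ℤ)} :
    g ∈ Gsc m ↔ rd m g 0 1 = 0 ∧ rd m g 1 0 = 0 ∧ rd m g 0 0 = rd m g 1 1 := Iff.rfl

theorem mem_Gsc' {m : ℕ} {g : SL(2, ℤ)} : g ∈ Gsc m ↔ ∃ t : ZMod m, rd m g = t • 1 := by
  refine ⟨fun ⟨a, b, c⟩ => ⟨rd m g 0 0, ?_⟩, fun ⟨t, h⟩ => by simp [mem_Gsc, h]⟩
  ext i j
  fin_cases i <;> fin_cases j <;> simp [a, b, c]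

instance gscNormal (m : ℕ) : (Gsc m).Normal := ⟨fun g hg h => by
  obtain ⟨t, ht⟩ := mem_Gsc'.1 hg
  refine mem_Gsc'.2 ⟨t, ?_⟩
  rw [rd_mul, rd_mul, ht, mul_smul_comm, smul_mul_assoc, mul_one, ← rd_mul, mul_inv_cancel, rd_one]⟩

theorem Gamma_le_Gsc (m : ℕ) : CongruenceSubgroup.Gamma m ≤ Gsc m := fun g hg => by
  rw [CongruenceSubgroup.Gamma_mem] at hg
  simp [mem_Gsc, rd_apply, hg]

instance gscIndex (m : ℕ) [NeZero m] : (Gsc m).FiniteIndex :=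
  Subgroup.finiteIndex_of_le (Gamma_le_Gsc m)

/-- `σ` is the diamond operator which belongs to `r`: it reduces to `diag (r⁻¹, r)`. -/
def IsDia (m r : ℕ) (σ : SL(2, ℤ)) : Prop :=
  rd m σ 0 1 = 0 ∧ rd m σ 1 0 = 0 ∧ rd m σ 1 1 = r

end Pool.Agent.Lib.MP_0d42ed_ag.FM.C9
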